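import Mathlib
import Pool.Agent.Lib.MP_5ef43e_nt.Density
import Pool.Agent.Lib.MP_5ef43e_nt.Smooth

/-! For every number field `k` and every degree `d ≥ 2` a whole congruence class of forms defines
smooth surfaces all of whose closed points have degree divisible by `d`. -/

namespace Pool.Agent.Results.MP_5ef43e_nt.CongruenceClass

open Pool.Agent.Lib.MP_5ef43e_nt
open IsDedekindDomain HeightOneSpectrum NumberField

universe u

/-- An irreducible monic polynomial of given degree over a finite field. -/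
lemma exists_irreducible_of_finite (κ : Type u) [Field κ] [Finite κ] {d : ℕ} (hd : 0 < d) :
    ∃ g : Polynomial κ, g.Monic ∧ g.natDegree = d ∧ Irreducible g := by
  obtain ⟨p, hp⟩ := CharP.exists κ
  have : Fact p.Prime := ⟨CharP.char_is_prime κ p⟩
  have : NeZero d := ⟨hd.ne'⟩
  obtain ⟨α, hα⟩ := Field.exists_primitive_element κ (FiniteField.Extension κ p d)
  have hint : IsIntegral κ α := Algebra.IsIntegral.isIntegral α
  refine ⟨minpoly κ α, minpoly.monic hint, ?_, minpoly.irreducible hint⟩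
  rw [← IntermediateField.adjoin.finrank hint, hα, IntermediateField.finrank_top',
    FiniteField.finrank_extension]

lemma exists_lift {A : Type u} [CommRing A] (p : Ideal A) [p.IsMaximal] [Finite (A ⧸ p)] {d : ℕ}
    (hd : 0 < d) : ∃ f : Polynomial A, f.Monic ∧ f.natDegree = d ∧
      Irreducible (f.map (Ideal.Quotient.mk p)) := by
  let : Field (A ⧸ p) := Ideal.Quotient.field p
  obtain ⟨g, hg1, hg2, hg3⟩ := exists_irreducible_of_finite (A ⧸ p) hd
  have hl : g ∈ Polynomial.lifts (Ideal.Quotient.mk p) := by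
    rw [Polynomial.lifts_iff_coeff_lifts]
    intro n
    exact Ideal.Quotient.mk_surjective _
  obtain ⟨q, hq1, hq2, hq3⟩ := Polynomial.lifts_and_natDegree_eq_and_monic hl hg1
  exact ⟨q, hq3, hq2.trans hg2, by rw [hq1]; exact hg3⟩

variable (k : Type u) [Field k] [NumberField k]

/-- Two distinct primes, the second one prime to `d`. -/
lemma exists_primes {d : ℕ} (hd : 2 ≤ d) : ∃ v w : HeightOneSpectrum (𝓞 k),
    v.asIdeal ≠ w.asIdeal ∧ (d : 𝓞 k) ∉ w.asIdeal := by
  obtain ⟨l, hl, hlp⟩ := Nat.exists_infinite_primes (d + 3)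
  have h2 : Prime (2 : ℤ) := Int.prime_two
  have hlp' : Prime (l : ℤ) := Nat.prime_iff_prime_int.mp hlp
  have hm2 : (Ideal.span {(2 : ℤ)}).IsMaximal :=
    PrincipalIdealRing.isMaximal_of_irreducible h2.irreducible
  have hml : (Ideal.span {(l : ℤ)}).IsMaximal :=
    PrincipalIdealRing.isMaximal_of_irreducible hlp'.irreducible
  obtain ⟨P, hP, hPo⟩ := Ideal.exists_maximal_ideal_liesOver_of_isIntegral
    (S := 𝓞 k) (Ideal.span {(2 : ℤ)})
  obtain ⟨Q, hQ, hQo⟩ := Ideal.exists_maximal_ideal_liesOver_of_isIntegral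
    (S := 𝓞 k) (Ideal.span {(l : ℤ)})
  have hP2 : ((2 : ℤ) : 𝓞 k) ∈ P := by
    have : (2 : ℤ) ∈ Ideal.span {(2 : ℤ)} := Ideal.mem_span_singleton_self _
    rw [hPo.over] at this
    simpa using this
  have hPbot : P ≠ ⊥ := by
    rintro rfl
    rw [Ideal.mem_bot] at hP2
    norm_num at hP2
  have hQmem : ∀ n : ℤ, ((n : ℤ) : 𝓞 k) ∈ Q ↔ (l : ℤ) ∣ n := by
    intro n
    rw [← Ideal.mem_span_singleton, hQo.over, Ideal.mem_comap]
    simp
  have hQbot : Q ≠ ⊥ := by
    rintro rfl
    have := (hQmem l).mpr dvd_rfl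
    rw [Ideal.mem_bot] at this
    have h0 : (l : ℤ) = 0 := by exact_mod_cast this
    exact hlp'.ne_zero h0
  refine ⟨⟨P, hP.isPrime, hPbot⟩, ⟨Q, hQ.isPrime, hQbot⟩, ?_, ?_⟩
  · intro h
    have h' : P = Q := h
    rw [h', hQmem] at hP2
    have := Int.le_of_dvd (by norm_num) hP2
    omega
  · intro h
    have h' : ((d : ℤ) : 𝓞 k) ∈ Q := by simpa using h
    rw [hQmem] at h'
    have := Int.le_of_dvd (by omega) h'
    omega

theorem result (d : ℕ) (hd : 2 ≤ d) :
    ∃ (N : Ideal (𝓞 k)) (F₀ : MvPolynomial (Fin 4) (𝓞 k)), N ≠ ⊥ ∧ F₀.IsHomogeneous d ∧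
      ∀ F : MvPolynomial (Fin 4) (𝓞 k), F.IsHomogeneous d →
        (∀ m, F.coeff m - F₀.coeff m ∈ N) →
          IsSmoothSurface k d (F.map (algebraMap (𝓞 k) k)) ∧
          (∀ x, OnSurface k (F.map (algebraMap (𝓞 k) k)) x → d ∣ pointDegree k x) ∧
          IsLeast (densityDegreeSet k (F.map (algebraMap (𝓞 k) k))) d := by
  obtain ⟨v, w, hvw, hdw⟩ := exists_primes k hd
  have hvm : v.asIdeal.IsMaximal := v.isMaximal
  have hwm : w.asIdeal.IsMaximal := w.isMaximal
  obtain ⟨f, hf1, hf2, hf3⟩ := exists_lift v.asIdeal (show 0 < d by omega)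
  obtain ⟨ϖ, hϖ⟩ := v.intValuation_exists_uniformizer
  have hcop : IsCoprime (v.asIdeal ^ 2) w.asIdeal := by
    refine IsCoprime.pow_left ?_
    rw [Ideal.isCoprime_iff_sup_eq]
    exact Ideal.IsMaximal.coprime_of_ne hvm hwm hvw
  obtain ⟨a, ha, b, hb, hab⟩ := Ideal.isCoprime_iff_exists.mp hcop
  set F1 := binForm f d 0 1 + MvPolynomial.C ϖ * binForm f d 2 3 with hF1
  have hF1hom : F1.IsHomogeneous d := by
    refine (binForm_isHomogeneous f d 0 1).add ?_
    have := (MvPolynomial.isHomogeneous_C (Fin 4) ϖ).mul (binForm_isHomogeneous f d 2 3)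
    rwa [zero_add] at this
  set F2 := fermat (𝓞 k) d with hF2
  have hF2hom : F2.IsHomogeneous d := fermat_isHomogeneous _ d
  refine ⟨v.asIdeal ^ 2 * w.asIdeal, MvPolynomial.C b * F1 + MvPolynomial.C a * F2, ?_, ?_, ?_⟩
  · exact mul_ne_zero (pow_ne_zero _ v.ne_bot) w.ne_bot
  · refine MvPolynomial.IsHomogeneous.add ?_ ?_
    · have := (MvPolynomial.isHomogeneous_C (Fin 4) b).mul hF1hom
      rwa [zero_add] at this
    · have := (MvPolynomial.isHomogeneous_C (Fin 4) a).mul hF2hom
      rwa [zero_add] at this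
  · intro F hom hcong
    have hcong1 : ∀ m, (F - F1).coeff m ∈ v.asIdeal ^ 2 := by
      intro m
      have h1 := Ideal.mul_le_left (hcong m)
      have h2 : (F - F1).coeff m = (F.coeff m -
          (MvPolynomial.C b * F1 + MvPolynomial.C a * F2).coeff m) +
            a * (F2.coeff m - F1.coeff m) := by
        have hb' : b = 1 - a := by rw [← hab]; ring
        simp only [MvPolynomial.coeff_sub, MvPolynomial.coeff_add, MvPolynomial.coeff_C_mul]
        rw [hb']
        ring
      rw [h2]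
      exact Ideal.add_mem _ h1 (Ideal.mul_mem_right _ _ ha)
    have hcong2 : ∀ m, (F - F2).coeff m ∈ w.asIdeal := by
      intro m
      have h1 := Ideal.mul_le_right (hcong m)
      have h2 : (F - F2).coeff m = (F.coeff m -
          (MvPolynomial.C b * F1 + MvPolynomial.C a * F2).coeff m) +
            b * (F1.coeff m - F2.coeff m) := by
        have ha' : a = 1 - b := by rw [← hab]; ring
        simp only [MvPolynomial.coeff_sub, MvPolynomial.coeff_add, MvPolynomial.coeff_C_mul]
        rw [ha']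
        ring
      rw [h2]
      exact Ideal.add_mem _ h1 (Ideal.mul_mem_right _ _ hb)
    have hdvd : ∀ x, OnSurface k (F.map (algebraMap (𝓞 k) k)) x → d ∣ pointDegree k x :=
      fun x hx => dvd_pointDegree v (by omega) hf1 hf2 hf3 hϖ hom hcong1 hx
    have hsm : ∀ x : Fin 4 → AlgebraicClosure k, x ≠ 0 → ∃ i, MvPolynomial.aeval x
        (MvPolynomial.pderiv i (MvPolynomial.map (algebraMap (𝓞 k) k) F)) ≠ 0 :=
      fun x hx => smooth_of_fermat w.asIdeal hdw hom hcong2 hx
    refine ⟨⟨hom.map _, ?_, fun x hx => hsm x hx.1⟩, hdvd,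
      isLeast_densityDegreeSet hd (hom.map _) hdvd⟩
    intro h0
    obtain ⟨i, hi⟩ := hsm (fun _ => 1) (by
      intro h
      have := congrFun h 0
      simp at this)
    apply hi
    rw [h0, map_zero, map_zero]

end Pool.Agent.Results.MP_5ef43e_nt.CongruenceClass
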